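import Mathlib
import Pool.Agent.H.MP_86dbc5_an.B

namespace Pool.Agent.H.MP_93a5dd_an

open Set Filter Topology MeasureTheory Pool.Agent.H.MP_86dbc5_an

def ch (S : List ℕ → Prop) (c s : List ℕ) : Prop := (∃ k, c = k :: s) ∧ S c

def Le (S S' : List ℕ → Prop) (s s' : List ℕ) : Prop :=
  ¬ Acc (ch S') s' ∨ ∃ (h : Acc (ch S) s) (h' : Acc (ch S') s'), h.rank ≤ h'.rank

theorem Le_total (S S' : List ℕ → Prop) (s s' : List ℕ) : Le S S' s s' ∨ Le S' S s' s := by
  by_cases h : Acc (ch S) s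
  · by_cases h' : Acc (ch S') s'
    · rcases le_total h.rank h'.rank with e | e
      · exact Or.inl (Or.inr ⟨h, h', e⟩)
      · exact Or.inr (Or.inr ⟨h', h, e⟩)
    · exact Or.inl (Or.inl h')
  · exact Or.inr (Or.inl h)

theorem Le_step {S S' : List ℕ → Prop} {s s' : List ℕ} (h : Le S S' s s') {k : ℕ}
    (hk : S (k :: s)) : ∃ k', S' (k' :: s') ∧ Le S S' (k :: s) (k' :: s') := by
  rcases h with h | ⟨h, h', e⟩
  · obtain ⟨c, hc, ⟨k', rfl⟩, h2⟩ : ∃ c, ¬ Acc (ch S') c ∧ ch S' c s' := by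
      by_contra hn
      push Not at hn
      exact h (Acc.intro _ fun c hc => by_contra fun h0 => hn c h0 hc)
    exact ⟨k', h2, Or.inl hc⟩
  · have h1 : ch S (k :: s) s := ⟨⟨k, rfl⟩, hk⟩
    have h2 := (h.rank_lt_of_rel h1).trans_le e
    rw [h'.rank_eq, Ordinal.lt_iSup_iff] at h2
    obtain ⟨⟨c, hc⟩, h3⟩ := h2
    obtain ⟨⟨k', rfl⟩, h4⟩ := id hc
    exact ⟨k', h4, Or.inr ⟨h.inv h1, h'.inv hc, Order.lt_succ_iff.1 h3⟩⟩

def Sim (S S' : List ℕ → Prop) (φ : List ℕ → ℕ) : Prop :=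
  ∀ (x : ℕ → ℕ) (n : ℕ), (∀ m ≤ n, S (nd x m)) → S' (nd (fun k => φ (nd x (k + 1))) n)

theorem sim_of {S S' : List ℕ → Prop} (h0 : S' []) (h : Le S S' [] []) : ∃ φ, Sim S S' φ := by
  have key : ∀ (s s' : List ℕ) (k : ℕ), ∃ k', Le S S' s s' → S (k :: s) →
      S' (k' :: s') ∧ Le S S' (k :: s) (k' :: s') := by
    intro s s' k
    by_cases h : Le S S' s s' ∧ S (k :: s)
    · obtain ⟨k', hk⟩ := Le_step h.1 h.2
      exact ⟨k', fun _ _ => hk⟩
    · exact ⟨0, fun a b => absurd ⟨a, b⟩ h⟩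
  choose g hg using key
  let ψ : List ℕ → List ℕ := fun l => l.rec [] fun k s r => g s r k :: r
  refine ⟨fun l => (ψ l).headD 0, fun x n hn => ?_⟩
  have e : ∀ n, nd (fun k => (ψ (nd x (k + 1))).headD 0) n = ψ (nd x n) := by
    intro n
    induction n with
    | zero => rfl
    | succ n ih => rw [nd, ih]; rfl
  rw [e]
  have : S' (ψ (nd x n)) ∧ Le S S' (nd x n) (ψ (nd x n)) := by
    induction n with
    | zero => exact ⟨h0, h⟩
    | succ n ih => exact hg _ _ _ (ih fun m hm => hn m (by omega)).2 (hn (n + 1) le_rfl)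
  exact this.1

theorem sim_total (S S' : List ℕ → Prop) : (∃ φ, Sim S S' φ) ∨ ∃ φ, Sim S' S φ := by
  by_cases h : S []
  · by_cases h' : S' []
    · exact (Le_total S S' [] []).imp (sim_of h') (sim_of h)
    · exact Or.inr ⟨fun _ => 0, fun x n hn => absurd (hn 0 (Nat.zero_le _)) h'⟩
  · exact Or.inl ⟨fun _ => 0, fun x n hn => absurd (hn 0 (Nat.zero_le _)) h⟩

theorem Sim.br {S S' : List ℕ → Prop} {φ : List ℕ → ℕ} (h : Sim S S' φ)
    (hb : ∃ x, ∀ n, S (nd x n)) : ∃ x, ∀ n, S' (nd x n) :=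
  let ⟨x, hx⟩ := hb; ⟨_, fun n => h x n fun m _ => hx m⟩

abbrev P := ℕ → Bool

instance : PolishSpace P := ⟨⟩

def nt (t : P) (n : ℕ) : ℕ := (t n).toNat

theorem nt_cont : Continuous nt :=
  continuous_pi fun n => (continuous_of_discreteTopology (f := Bool.toNat)).comp
    (continuous_apply n)

theorem tendsto_of_nd {α : Type} [TopologicalSpace α] {z : ℕ → ℕ → α} {x : ℕ → α}
    (h : ∀ n, ∀ i < n, z n i = x i) : Tendsto z atTop (𝓝 x) := by
  refine tendsto_pi_nhds.2 fun i => tendsto_const_nhds.congr' ?_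
  filter_upwards [eventually_gt_atTop i] with n hn
  exact (h n i hn).symm

theorem code {B : Set P} (hB : AnalyticSet B) : ∃ c : List ℕ → List ℕ → Prop,
    ∀ t, t ∈ B ↔ ∃ x, ∀ n, c (nd x n) (nd (nt t) n) := by
  rw [AnalyticSet] at hB
  rcases hB with rfl | ⟨f, hf, rfl⟩
  · exact ⟨fun _ _ => False, fun t => by simp⟩
  refine ⟨fun s w => ∃ z, nd z s.length = s ∧ nd (nt (f z)) s.length = w, fun t => ⟨?_, ?_⟩⟩
  · rintro ⟨x, rfl⟩
    exact ⟨x, fun n => ⟨x, by rw [nd_length], by rw [nd_length]⟩⟩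
  · rintro ⟨x, hx⟩
    choose z h1 h2 using hx
    simp only [nd_length, nd_eq_iff] at h1 h2
    refine ⟨x, tendsto_nhds_unique ((hf.tendsto x).comp (tendsto_of_nd h1))
      (tendsto_of_nd (z := fun n => f (z n)) fun n i hi => ?_)⟩
    have := h2 n i hi
    simp only [nt] at this
    revert this
    cases f (z n) i <;> cases t i <;> simp

def Tr (i : Bool) (t : P) (s : List ℕ) : Prop :=
  t (Encodable.encode (i, s, nd (nt t) s.length)) = true

theorem lc_app {Z β γ : Type} [TopologicalSpace Z] {g : Z → β} (hg : IsLocallyConstant g)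
    {Q : β → Z → γ} (hQ : ∀ s, IsLocallyConstant (Q s)) : IsLocallyConstant fun z => Q (g z) z := by
  rw [IsLocallyConstant.iff_eventually_eq] at *
  intro z
  filter_upwards [hg z, (hQ (g z)).eventually_eq z] with w h1 h2
  rw [h1, h2]

theorem Tr_lc (i : Bool) (s : List ℕ) : IsLocallyConstant fun t => Tr i t s := by
  refine lc_app ((nd_lc s.length).comp_continuous nt_cont)
    (Q := fun w t => t (Encodable.encode (i, s, w)) = true) fun w => ?_
  have h : IsLocallyConstant fun t : P => t (Encodable.encode (i, s, w)) :=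
    (IsLocallyConstant.iff_continuous _).2 (continuous_apply _)
  exact h.comp (fun b : Bool => b = true)

def An (i : Bool) : Set P := {t | ∃ φ, Sim (Tr i t) (Tr (!i) t) φ}

theorem An_analytic (i : Bool) : AnalyticSet (An i) := by
  have hc : IsClosed {q : P × (List ℕ → ℕ) | Sim (Tr i q.1) (Tr (!i) q.1) q.2} := by
    simp only [Sim, ofPred_forall]
    refine isClosed_iInter fun x => isClosed_iInter fun n => ?_
    have h1 : IsOpen {q : P × (List ℕ → ℕ) | ∀ m ≤ n, Tr i q.1 (nd x m)} := by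
      have : {q : P × (List ℕ → ℕ) | ∀ m ≤ n, Tr i q.1 (nd x m)}
          = ⋂ m ∈ Iic n, {q | Tr i q.1 (nd x m)} := by ext; simp
      rw [this]
      refine (finite_Iic n).isOpen_biInter fun m _ => ?_
      have := (((Tr_lc i (nd x m)).comp_continuous
        (continuous_fst (X := P) (Y := List ℕ → ℕ))).isClopen_fiber True).isOpen
      simpa using this
    have h2 : IsClosed {q : P × (List ℕ → ℕ) |
        Tr (!i) q.1 (nd (fun k => q.2 (nd x (k + 1))) n)} := by
      have := (lc_app (Z := P × (List ℕ → ℕ))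
        ((nd_lc n).comp_continuous (f := fun q : P × (List ℕ → ℕ) => fun k => q.2 (nd x (k + 1)))
          (by fun_prop)) (Q := fun s q => Tr (!i) q.1 s)
        (fun s => (Tr_lc (!i) s).comp_continuous continuous_fst)).isClopen_fiber True
      simpa using this.isClosed
    have := h1.isClosed_compl.union h2
    convert this using 1
    ext q
    simp only [mem_union, mem_compl_iff, mem_ofPred_eq]
    tauto
  have := hc.analyticSet.image_of_continuous continuous_fst
  convert this using 1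
  ext t
  simp [An]

theorem An_cover (t : P) : t ∈ An false ∨ t ∈ An true := sim_total _ _

theorem An_insep (B : Set P) (hB : MeasurableSet B) (h0 : B ⊆ An false) (h1 : Bᶜ ⊆ An true) :
    False := by
  classical
  obtain ⟨c0, hc0⟩ := code hB.analyticSet
  obtain ⟨c1, hc1⟩ := code hB.compl.analyticSet
  let c : Bool × List ℕ × List ℕ → Prop := fun q => if q.1 then c1 q.2.1 q.2.2 else c0 q.2.1 q.2.2
  let t : P := fun k => decide (∃ q, Encodable.encode q = k ∧ c q)
  have ht : ∀ q, t (Encodable.encode q) = true ↔ c q := fun q => by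
    simp only [t, decide_eq_true_eq, Encodable.encode_injective.eq_iff, exists_eq_left]
  have e0 : t ∈ B ↔ ∃ x, ∀ n, Tr false t (nd x n) := by
    rw [hc0]; simp only [Tr, ht, nd_length]; simp [c]
  have e1 : t ∈ Bᶜ ↔ ∃ x, ∀ n, Tr true t (nd x n) := by
    rw [hc1]; simp only [Tr, ht, nd_length]; simp [c]
  by_cases h : t ∈ B
  · obtain ⟨φ, hφ⟩ := h0 h
    exact e1.2 (hφ.br (e0.1 h)) h
  · obtain ⟨φ, hφ⟩ := h1 h
    exact h (e0.2 (hφ.br (e1.1 h)))

theorem exf : ∃ f : (ℕ → ℕ) → P, Continuous f ∧ Function.Surjective f ∧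
    ∀ B : Set P, MeasurableSet B → (∀ t ∈ B, ∃ x, x 0 = 0 ∧ f x = t) →
      (∀ t ∉ B, ∃ x, x 0 ≠ 0 ∧ f x = t) → False := by
  have h0 := An_analytic false
  have h1 := An_analytic true
  rw [AnalyticSet] at h0 h1
  rcases h0 with h0 | ⟨f0, c0, h0⟩
  · exact (An_insep ∅ MeasurableSet.empty (empty_subset _) fun t _ =>
      (An_cover t).resolve_left (by simp [h0])).elim
  rcases h1 with h1 | ⟨f1, c1, h1⟩
  · exact (An_insep univ MeasurableSet.univ
      (fun t _ => (An_cover t).resolve_right (by simp [h1])) (by simp)).elim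
  refine ⟨fun x => if x 0 = 0 then f0 (fun n => x (n + 1)) else f1 (fun n => x (n + 1)),
    ?_, fun t => ?_, fun B hB a b => An_insep B hB (fun t ht => ?_) fun t ht => ?_⟩
  · refine Continuous.if ?_ (by fun_prop) (by fun_prop)
    have : IsClopen {x : ℕ → ℕ | x 0 = 0} :=
      (isClopen_discrete {0}).preimage (continuous_apply 0)
    simp [this.frontier_eq]
  · rcases An_cover t with h | h
    · rw [← h0] at h
      obtain ⟨x, rfl⟩ := h
      exact ⟨fun n => n.casesOn 0 x, by simp⟩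
    · rw [← h1] at h
      obtain ⟨x, rfl⟩ := h
      exact ⟨fun n => n.casesOn 1 x, by simp⟩
  · obtain ⟨x, h, rfl⟩ := a t ht
    rw [← h0]
    simp [h]
  · obtain ⟨x, h, rfl⟩ := b t ht
    rw [← h1]
    simp [h]

end Pool.Agent.H.MP_93a5dd_an
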