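import Mathlib
import Pool.Agent.H.MP_93a5dd_an.A

namespace Pool.Agent.H.MP_93a5dd_an

open Set Filter Topology MeasureTheory Pool.Agent.H.MP_86dbc5_an

theorem inner {X : Type} [MetricSpace X] [MeasurableSpace X] [BorelSpace X] (ν : Measure X)
    [IsFiniteMeasure ν] {s : Set X} (h : AnalyticSet s) {c : ENNReal} (c2 : c < ν s) :
    ∃ K ⊆ s, IsClosed K ∧ c ≤ ν K := by
  rw [AnalyticSet] at h
  obtain rfl | ⟨f, hf, rfl⟩ := h
  · simp at c2
  have k1 (n : ℕ) (S : Set (ℕ → ℕ)) (h : c < ν (f '' S)) :
      ∃ b, c < ν (f '' (S ∩ {x | x n ≤ b})) := by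
    have m : Monotone fun b => f '' (S ∩ {x | x n ≤ b}) := fun a b h =>
      image_mono (inter_subset_inter_right _ fun x k => le_trans k h)
    rwa [← lt_iSup_iff, ← m.measure_iUnion, ← image_iUnion, ← inter_iUnion,
      inter_eq_self_of_subset_left fun x _ => mem_iUnion.2 ⟨x n, le_refl (x n)⟩]
  choose! g k1 using k1
  let S : ℕ → Set (ℕ → ℕ) := Nat.rec univ fun n S => S ∩ {x | x n ≤ g n S}
  have k2 (n) : c < ν (f '' S n) := n.rec (image_univ ▸ c2) fun n => k1 n _
  have k3 : Antitone S := antitone_nat_of_succ_le fun n => inter_subset_left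
  have k4 : ⋂ n, closure (f '' S n) ⊆ range f := fun y hy => by
    choose z z1 z2 using fun n : ℕ => Metric.mem_closure_iff.1 (mem_iInter.1 hy n) _
      (Nat.one_div_pos_of_nat (n := n))
    choose x x1 x2 using z1
    obtain ⟨a, -, φ, k4, k5⟩ := (isCompact_univ_pi fun i => ((finite_Iic (g i (S i))).union
      ((finite_Iic i).image fun n => x n i)).isCompact).tendsto_subseq (x := x) fun n i _ =>
        (lt_or_ge i n).imp (fun h => (k3 (Nat.succ_le_of_lt h) (x1 n)).2) fun h => ⟨n, h, rfl⟩
    refine ⟨a, tendsto_nhds_unique ((hf.tendsto a).comp k5) (tendsto_iff_dist_tendsto_zero.2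
      (squeeze_zero (fun _ => dist_nonneg) (fun n => ?_)
        (tendsto_one_div_add_atTop_nhds_zero_nat.comp k4.tendsto_atTop)))⟩
    rw [dist_comm]
    exact (x2 (φ n) ▸ z2 (φ n)).le
  refine ⟨⋂ n, closure (f '' S n), k4, isClosed_iInter fun _ => isClosed_closure, ?_⟩
  rw [Antitone.measure_iInter (fun a b h => closure_mono (image_mono (k3 h)))
    (fun _ => isClosed_closure.measurableSet.nullMeasurableSet) ⟨0, measure_ne_top _ _⟩]
  exact le_iInf fun n => (k2 n).le.trans (measure_mono subset_closure)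

theorem nullm {X : Type} [MetricSpace X] [MeasurableSpace X] [BorelSpace X] (ν : Measure X)
    [IsFiniteMeasure ν] {s : Set X} (h : AnalyticSet s) : NullMeasurableSet s ν := by
  by_cases h0 : ν s = 0
  · exact NullMeasurableSet.of_null h0
  obtain ⟨u, -, u1, u2⟩ := exists_seq_strictMono_tendsto' (pos_iff_ne_zero.2 h0)
  choose K K1 K2 K3 using fun n => inner ν h (u1 n).2
  have hm : MeasurableSet (⋃ n, K n) := MeasurableSet.iUnion fun n => (K2 n).measurableSet
  exact hm.nullMeasurableSet.congr (ae_eq_of_subset_of_measure_ge (iUnion_subset K1)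
    (le_of_tendsto' u2 fun n => (K3 n).trans (measure_mono (subset_iUnion K n)))
    hm.nullMeasurableSet (measure_ne_top _ _))

theorem jvn {X : Type} [MetricSpace X] [MeasurableSpace X] [BorelSpace X]
    [SecondCountableTopology X] (ν : Measure X)
    [IsFiniteMeasure ν] {f : (ℕ → ℕ) → X} (hf : Continuous f) (hs : Function.Surjective f) :
    ∃ σ : X → ℕ → ℕ, Measurable σ ∧ ∀ᵐ t ∂ν, f (σ t) = t := by
  classical
  let E : List ℕ → Set X := fun s => f '' {z | nd z s.length = s}
  have hE : ∀ s, NullMeasurableSet (E s) ν := fun s =>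
    nullm ν (((nd_lc s.length).isClopen_fiber s).isClosed.analyticSet.image_of_continuous hf)
  choose F hF1 hF2 hF3 using fun s => (hE s).exists_measurable_subset_ae_eq
  have step : ∀ s t, t ∈ E s → ∃ k, t ∈ E (k :: s) := by
    rintro s t ⟨z, hz, rfl⟩
    exact ⟨z s.length, z, by simp only [mem_ofPred_eq, List.length_cons, nd] at hz ⊢; rw [hz], rfl⟩
  let g : List ℕ → X → ℕ := fun s t => sInf {k | t ∈ F (k :: s)}
  have hg : ∀ s, Measurable (g s) := by
    intro s
    refine measurable_to_countable' fun k => ?_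
    have : g s ⁻¹' {k} = {t | (t ∈ F (k :: s) ∧ ∀ j, j < k → t ∉ F (j :: s)) ∨
        (k = 0 ∧ ∀ j, t ∉ F (j :: s))} := by
      ext t
      simp only [mem_preimage, mem_singleton_iff, mem_ofPred_eq, g]
      by_cases h : {k | t ∈ F (k :: s)}.Nonempty
      · constructor
        · rintro rfl
          exact Or.inl ⟨Nat.sInf_mem h, fun j hj => Nat.notMem_of_lt_sInf hj⟩
        · rintro (⟨h1, h2⟩ | ⟨-, h2⟩)
          · exact le_antisymm (Nat.sInf_le h1) (not_lt.1 fun h3 => h2 _ h3 (Nat.sInf_mem h))
          · exact absurd h.some_mem (h2 _)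
      · rw [not_nonempty_iff_eq_empty] at h
        have h' : ∀ j, t ∉ F (j :: s) := fun j hj => (h.subset hj : False)
        rw [h, Nat.sInf_empty]
        exact ⟨fun e => Or.inr ⟨e.symm, h'⟩, fun e => e.elim (fun a => absurd a.1 (h' _))
          fun a => a.1.symm⟩
    rw [this, measurableSet_setOfPred]
    have m : ∀ s, Measurable fun t => t ∈ F s := fun s => (hF2 s).mem
    exact ((m _).and (Measurable.forall fun j => measurable_const.imp (m _).not)).or
      (measurable_const.and (Measurable.forall fun j => (m _).not))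
  let l : ℕ → X → List ℕ := fun n => n.rec (fun _ => []) fun _ r t => g (r t) t :: r t
  have hl : ∀ n s, MeasurableSet {t | l n t = s} := by
    intro n
    induction n with
    | zero => intro s; exact MeasurableSet.const ([] = s)
    | succ n ih =>
      intro s
      have : {t | l (n + 1) t = s} = ⋃ r, ⋃ k, {t | l n t = r} ∩ (g r ⁻¹' {k} ∩ {_t | k :: r = s}) := by
        ext t
        simp only [mem_ofPred_eq, mem_iUnion, mem_inter_iff, mem_preimage, mem_singleton_iff]
        exact ⟨fun h => ⟨_, _, rfl, rfl, h⟩, by rintro ⟨r, k, rfl, rfl, h⟩; exact h⟩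
      rw [this]
      exact MeasurableSet.iUnion fun r => MeasurableSet.iUnion fun k => (ih r).inter
        ((hg r (measurableSet_singleton k)).inter (MeasurableSet.const _))
  refine ⟨fun t n => g (l n t) t, measurable_pi_lambda _ fun n => ?_, ?_⟩
  · refine measurable_to_countable' fun k => ?_
    have : (fun t => g (l n t) t) ⁻¹' {k} = ⋃ r, {t | l n t = r} ∩ g r ⁻¹' {k} := by
      ext t
      simp
    rw [this]
    exact MeasurableSet.iUnion fun r => (hl n r).inter (hg r (measurableSet_singleton k))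
  · have h1 : ∀ᵐ t ∂ν, ∀ s, t ∈ F s ↔ t ∈ E s :=
      ae_all_iff.2 fun s => (hF3 s).mem_iff
    filter_upwards [h1] with t ht
    have e : ∀ n, nd (fun n => g (l n t) t) n = l n t := by
      intro n
      induction n with
      | zero => rfl
      | succ n ih => rw [nd, ih]
    have h2 : ∀ n, t ∈ E (l n t) := by
      intro n
      induction n with
      | zero => obtain ⟨z, hz⟩ := hs t; exact ⟨z, rfl, hz⟩
      | succ n ih =>
        obtain ⟨k, hk⟩ := step _ _ ih
        exact (ht _).1 (Nat.sInf_mem (s := {k | t ∈ F (k :: l n t)}) ⟨k, (ht _).2 hk⟩)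
    choose z hz1 hz2 using h2
    have hz3 : ∀ n, ∀ i < n, z n i = g (l i t) t := by
      intro n
      have := hz1 n
      rw [mem_ofPred_eq, ← e n, nd_length, nd_eq_iff] at this
      exact this
    have := (hf.tendsto _).comp (tendsto_of_nd hz3)
    exact tendsto_nhds_unique this (tendsto_const_nhds.congr fun n => (hz2 n).symm)

end Pool.Agent.H.MP_93a5dd_an
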