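import Mathlib

namespace Pool.Agent.H.MP_93a5dd_an

open MeasureTheory

/-- A compact metrizable space with its Borel sets and a continuous action of `ℤ^d`. -/
structure TSys (d : ℕ) where
  X : Type
  [top : TopologicalSpace X]
  [cpt : CompactSpace X]
  [met : TopologicalSpace.MetrizableSpace X]
  [ms : MeasurableSpace X]
  [bor : BorelSpace X]
  act : (Fin d → ℤ) → X → X
  act_zero : ∀ x, act 0 x = x
  act_add : ∀ i j x, act (i + j) x = act i (act j x)
  cont : ∀ i, Continuous (act i)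

attribute [instance] TSys.top TSys.cpt TSys.met TSys.ms TSys.bor

/-- invariant Borel probability measures -/
def Inv {d : ℕ} (Y : TSys d) (μ : Measure Y.X) : Prop :=
  IsProbabilityMeasure μ ∧ ∀ i, μ.map (Y.act i) = μ

/-- `Y₀` is an invariant Borel set carrying an injective Borel equivariant map into `X`. -/
def Emb {d : ℕ} (Y X : TSys d) (Y₀ : Set Y.X) : Prop :=
  MeasurableSet Y₀ ∧ ∃ h : ∀ i y, y ∈ Y₀ → Y.act i y ∈ Y₀, ∃ ρ : Y₀ → X.X,
    Measurable ρ ∧ Function.Injective ρ ∧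
      ∀ i (y : Y₀), ρ ⟨Y.act i y, h i y y.2⟩ = X.act i (ρ y)

/-- `(Y, μ)` can be realized as an invariant measure on `X`. -/
def Realized {d : ℕ} (Y X : TSys d) (μ : Measure Y.X) : Prop :=
  ∃ Y₀ : Set Y.X, μ Y₀ᶜ = 0 ∧ Emb Y X Y₀

/-- There is an almost Borel embedding of `Y` into `X`. -/
def AlmostBorelEmb {d : ℕ} (Y X : TSys d) : Prop :=
  ∃ Y₀ : Set Y.X, (∀ μ, Inv Y μ → μ Y₀ᶜ = 0) ∧ Emb Y X Y₀

end Pool.Agent.H.MP_93a5dd_an
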