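import Mathlib
import Pool.Agent.H.MP_93a5dd_an.B
import Pool.Agent.H.MP_93a5dd_an.Defs

namespace Pool.Agent.H.MP_93a5dd_an

open Set Filter Topology MeasureTheory

noncomputable def p (k : ℕ) : ℕ := Nat.nth Nat.Prime k

instance (k : ℕ) : Fact (p k).Prime := ⟨Nat.prime_nth_prime k⟩

theorem p_inj : Function.Injective p := Nat.nth_injective Nat.infinite_setOf_prime

theorem np {s : Finset ℕ} {k : ℕ} : ((∏ i ∈ s, p i : ℕ) : ZMod (p k)) = 0 ↔ k ∈ s := by
  rw [Nat.cast_prod, Finset.prod_eq_zero_iff]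
  constructor
  · rintro ⟨i, hi, h⟩
    rw [ZMod.natCast_eq_zero_iff, Nat.prime_dvd_prime_iff_eq Fact.out Fact.out] at h
    rwa [p_inj h]
  · exact fun h => ⟨k, h, ZMod.natCast_self _⟩

abbrev Om := ∀ k, ZMod (p k)

instance (k : ℕ) : BorelSpace (ZMod (p k)) := ⟨borel_eq_top_of_discrete.symm⟩

noncomputable def mu : Measure Om := Measure.addHaarMeasure ⊤

instance : mu.IsAddHaarMeasure := inferInstanceAs (Measure.addHaarMeasure ⊤).IsAddHaarMeasure

instance : IsProbabilityMeasure mu := ⟨by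
  have := Measure.addHaarMeasure_self (K₀ := (⊤ : TopologicalSpace.PositiveCompacts Om))
  simpa [mu] using this⟩

theorem rigid (a : Om) (n : ℕ) (ha : a n = 0) (E : Set Om) (hE : MeasurableSet E)
    (g : Om → ZMod (p n)) (hg : Measurable g)
    (h : ∀ ω ∈ E, ∀ N : ℕ, ω + N • a ∈ E ∧ g (ω + N • a) = g ω + N) : mu E = 0 := by
  classical
  have e : E = ⋃ c, E ∩ g ⁻¹' {c} := by ext; simp
  rw [e, measure_iUnion_null_iff]
  intro c
  let N : ℕ → ℕ := fun l => ∏ i ∈ (Finset.range l).erase n, p i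
  have h1 : Tendsto (fun l => N l • a) atTop (𝓝 0) := by
    refine tendsto_pi_nhds.2 fun k => tendsto_const_nhds.congr' ?_
    filter_upwards [eventually_gt_atTop k] with l hl
    by_cases hk : k = n
    · subst hk; simp [ha]
    · have : ((N l : ℕ) : ZMod (p k)) = 0 := np.2 (by simp [hk, hl])
      simp [this]
  have hc : Continuous fun v : Om => ContinuousMap.addRight v :=
    ContinuousMap.continuous_of_continuous_uncurry _
      (show Continuous fun q : Om × Om => q.2 + q.1 by fun_prop)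
  have hm : MeasurableSet (E \ g ⁻¹' {c}) := hE.diff (hg (measurableSet_singleton c))
  have h2 := tendsto_measure_symmDiff_preimage_nhds_zero (μ := mu) (ν := mu)
    ((hc.tendsto 0).comp h1) (Eventually.of_forall fun l => measurePreserving_add_right mu _)
    (measurePreserving_add_right mu _) hm.nullMeasurableSet (measure_ne_top _ _)
  refine le_antisymm (ge_of_tendsto' h2 fun l => measure_mono fun ω hω => Or.inl ⟨?_, ?_⟩)
    (zero_le)
  · obtain ⟨a1, a2⟩ := h ω hω.1 (N l)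
    refine ⟨a1, fun a3 => ?_⟩
    have a4 : g (ω + N l • a) = c := a3
    have a5 : g ω = c := hω.2
    rw [a2, a5, add_eq_left] at a4
    simpa using np.1 a4
  · intro a3
    have a4 : ω + 0 ∈ E \ g ⁻¹' {c} := a3
    rw [add_zero] at a4
    exact a4.2 hω.2

def cd (t : P) (k : ℕ) : Prop := t (k / 2) = decide (k % 2 = 1)

theorem cd_ex (t : P) (j : ℕ) : cd t (2 * j + (t j).toNat) := by
  unfold cd
  have : (2 * j + (t j).toNat) / 2 = j := by cases t j <;> simp; omega
  rw [this]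
  cases t j <;> simp

theorem cd_ne {t t' : P} (h : t ≠ t') : ∃ n, cd t' n ∧ ¬ cd t n := by
  obtain ⟨j, hj⟩ := Function.ne_iff.1 h
  refine ⟨_, cd_ex t' j, fun h1 => hj ?_⟩
  have h2 := cd_ex t' j
  unfold cd at h1 h2
  have : (2 * j + (t' j).toNat) / 2 = j := by cases t' j <;> simp; omega
  rw [this] at h1 h2
  rw [h1, ← h2]

open Classical in
noncomputable def av (t : P) : Om := fun k => if cd t k then 1 else 0

theorem av_cont : Continuous av := by
  refine continuous_pi fun k => ?_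
  have h : IsLocallyConstant fun t : P => t (k / 2) :=
    (IsLocallyConstant.iff_continuous _).2 (continuous_apply _)
  exact (h.comp fun b => (@ite _ (b = decide (k % 2 = 1)) (Classical.propDecidable _) 1 0 :
    ZMod (p k))).continuous

abbrev W := ℕ → ℕ∞

instance : BorelSpace ℕ∞ := ⟨borel_eq_top_of_countable.symm⟩

open Classical in
noncomputable def tr (u : W) (m : ℕ) (ω : Om) : Om :=
  fun k => if ∀ j ≤ k, u j ≤ m then ω k else 0

theorem tr_cont (m : ℕ) : Continuous fun q : W × Om => tr q.1 m q.2 := by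
  refine continuous_pi fun k => Continuous.if ?_ (by fun_prop) (by fun_prop)
  have : IsClopen {q : W × Om | ∀ j ≤ k, q.1 j ≤ m} := by
    have e : {q : W × Om | ∀ j ≤ k, q.1 j ≤ m} = ⋂ j ∈ Iic k, {q : W × Om | q.1 j ≤ m} := by
      ext; simp
    rw [e]
    refine (finite_Iic k).isClopen_biInter fun j _ => ⟨isClosed_le (by fun_prop) (by fun_prop), ?_⟩
    have : {q : W × Om | q.1 j ≤ m} = {q | q.1 j < (m : ℕ∞) + 1} := by
      ext q
      exact (ENat.lt_add_one_iff (ENat.natCast_ne_top m)).symm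
    rw [this]
    exact isOpen_lt (by fun_prop) (by fun_prop)
  simp [this.frontier_eq]

theorem tr_add (u : W) (m : ℕ) (ω a : Om) (n : ℤ) : tr u m (ω + n • a) = tr u m ω + n • tr u m a := by
  funext k
  simp only [tr, Pi.add_apply, Pi.smul_apply]
  split_ifs <;> simp

theorem tr_ex {u : W} (hu : ∀ j, u j ≠ ⊤) (k : ℕ) : ∃ m, ∀ ω, tr u m ω k = ω k := by
  choose x hx using fun j => ENat.ne_top_iff_exists.1 (hu j)
  refine ⟨(Finset.range (k + 1)).sup x, fun ω => if_pos fun j hj => ?_⟩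
  rw [← hx, Nat.cast_le]
  exact Finset.le_sup (Finset.mem_range.2 (by omega))

noncomputable def skew (d : ℕ) (Z G : Type) [TopologicalSpace Z] [CompactSpace Z]
    [TopologicalSpace.MetrizableSpace Z] [MeasurableSpace Z] [BorelSpace Z]
    [TopologicalSpace G] [CompactSpace G] [TopologicalSpace.MetrizableSpace G] [MeasurableSpace G]
    [BorelSpace G] [SecondCountableTopology G] [AddCommGroup G] [IsTopologicalAddGroup G]
    (c : Z → G) (hc : Continuous c) : TSys d where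
  X := Z × G
  act i y := (y.1, y.2 + (∑ k, i k) • c y.1)
  act_zero y := by simp
  act_add i j y := by
    simp only [Pi.add_apply, Finset.sum_add_distrib, add_smul]
    congr 1
    abel
  cont i := by fun_prop

def emb (f : (ℕ → ℕ) → P) (x : ℕ → ℕ) : P × W := (f x, fun j => (x j : ℕ∞))

def K (f : (ℕ → ℕ) → P) : Set (P × W) := closure (range (emb f))

instance (f : (ℕ → ℕ) → P) : CompactSpace (K f) :=
  isCompact_iff_compactSpace.1 isClosed_closure.isCompact

theorem K_fin {f : (ℕ → ℕ) → P} (hf : Continuous f) {q : P × W} (hq : q ∈ K f)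
    (h : ∀ j, q.2 j ≠ ⊤) : ∃ x, emb f x = q := by
  obtain ⟨s, hs, hl⟩ := mem_closure_iff_seq_limit.1 hq
  choose z hz using hs
  choose x hx using fun j => ENat.ne_top_iff_exists.1 (h j)
  have h1 : Tendsto z atTop (𝓝 x) := by
    refine tendsto_pi_nhds.2 fun j => ENat.isEmbedding_natCast.tendsto_nhds_iff.2 ?_
    rw [hx]
    have := (((continuous_apply j).comp continuous_snd).tendsto q).comp hl
    refine this.congr fun n => ?_
    simp [← hz, emb]
  refine ⟨x, Prod.ext (tendsto_nhds_unique ((hf.tendsto x).comp h1) ?_) (funext hx)⟩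
  refine ((continuous_fst.tendsto q).comp hl).congr fun n => ?_
  simp [← hz, emb]

noncomputable def bv (f : (ℕ → ℕ) → P) (κ : K f) (m : ℕ) : Om := tr κ.1.2 m (av κ.1.1)

theorem bv_cont (f : (ℕ → ℕ) → P) : Continuous (bv f) :=
  continuous_pi fun m => (tr_cont m).comp (f := fun κ : K f => (κ.1.2, av κ.1.1))
    ((continuous_snd.comp continuous_subtype_val).prodMk
      (av_cont.comp (continuous_fst.comp continuous_subtype_val)))

noncomputable def YY (d : ℕ) : TSys d := skew d P Om av av_cont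

noncomputable def XX (d : ℕ) (f : (ℕ → ℕ) → P) : TSys d := skew d (K f) (ℕ → Om) (bv f) (bv_cont f)

theorem realized (d : ℕ) {f : (ℕ → ℕ) → P} (hf : Continuous f) (hs : Function.Surjective f)
    (μ : Measure (P × Om)) [IsProbabilityMeasure μ] : Realized (YY d) (XX d f) μ := by
  letI := TopologicalSpace.metrizableSpaceMetric P
  obtain ⟨σ, hσ, h⟩ := jvn (μ.map Prod.fst) hf hs
  have hm : MeasurableSet {t | f (σ t) = t} :=
    measurableSet_eq_fun (hf.measurable.comp hσ) measurable_id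
  have he : Measurable fun t => emb f (σ t) :=
    (hf.measurable.comp hσ).prodMk (measurable_pi_lambda _ fun j =>
      (measurable_of_countable (fun n : ℕ => (n : ℕ∞))).comp ((measurable_pi_apply j).comp hσ))
  have hK : ∀ t, emb f (σ t) ∈ K f := fun t => subset_closure ⟨_, rfl⟩
  refine ⟨{y : P × Om | f (σ y.1) = y.1}, ?_, measurable_fst hm, fun i y hy => hy,
    fun y => (⟨emb f (σ y.1.1), hK _⟩, fun m => tr (emb f (σ y.1.1)).2 m y.1.2), ?_, ?_, ?_⟩
  · exact (ae_map_iff measurable_fst.aemeasurable hm).1 h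
  · have h1 : Measurable fun y : {y : P × Om | f (σ y.1) = y.1} => emb f (σ y.1.1) :=
      he.comp (measurable_fst.comp measurable_subtype_coe)
    exact h1.subtype_mk.prodMk (measurable_pi_lambda _ fun m => (tr_cont m).measurable.comp
      (h1.snd.prodMk (measurable_snd.comp measurable_subtype_coe)))
  · rintro ⟨⟨t, ω⟩, hy⟩ ⟨⟨t', ω'⟩, hy'⟩ e
    obtain ⟨e1, e2⟩ := Prod.ext_iff.1 e
    have e3 : f (σ t) = f (σ t') := congrArg (fun κ : K f => κ.1.1) e1
    have e4 : t = t' := hy.symm.trans (e3.trans hy')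
    subst e4
    refine Subtype.ext (Prod.ext rfl (funext fun k => ?_))
    obtain ⟨m, hm⟩ := tr_ex (u := (emb f (σ t)).2) (fun j => ENat.natCast_ne_top _) k
    have := congrFun (congrFun e2 m) k
    exact (hm ω).symm.trans (this.trans (hm ω'))
  · rintro i ⟨⟨t, ω⟩, hy⟩
    refine Prod.ext rfl (funext fun m => ?_)
    have hy' : f (σ t) = t := hy
    show tr (emb f (σ t)).2 m (ω + (∑ k, i k) • av t)
      = tr (emb f (σ t)).2 m ω + (∑ k, i k) • tr (emb f (σ t)).2 m (av (f (σ t)))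
    rw [tr_add, hy']

theorem core {f : (ℕ → ℕ) → P} (hf : Continuous f) (Y₀ : Set (P × Om)) (hY : MeasurableSet Y₀)
    (full : ∀ t, ∀ᵐ ω ∂mu, (t, ω) ∈ Y₀) (ρ : P × Om → K f × (ℕ → Om)) (hρ : Measurable ρ)
    (inj : InjOn ρ Y₀) (h1 : ∀ t ω (N : ℕ), (t, ω) ∈ Y₀ → (t, ω + N • av t) ∈ Y₀)
    (h2 : ∀ t ω (N : ℕ), (t, ω) ∈ Y₀ →
      ρ (t, ω + N • av t) = ((ρ (t, ω)).1, (ρ (t, ω)).2 + N • bv f (ρ (t, ω)).1)) :
    ∃ B : Set P, MeasurableSet B ∧ (∀ t ∈ B, ∃ x, x 0 = 0 ∧ f x = t) ∧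
      ∀ t ∉ B, ∃ x, x 0 ≠ 0 ∧ f x = t := by
  have c1 : ∀ t ω, (t, ω) ∈ Y₀ → ∀ j, (ρ (t, ω)).1.1.2 j ≠ ⊤ := by
    intro t ω hy j hj
    let N := ∏ i ∈ Finset.range j, p i
    have e : N • bv f (ρ (t, ω)).1 = 0 := by
      funext m k
      by_cases hk : k < j
      · have : ((N : ℕ) : ZMod (p k)) = 0 := np.2 (Finset.mem_range.2 hk)
        simp [this]
      · have : bv f (ρ (t, ω)).1 m k = 0 := if_neg fun h => by
          simpa [hj] using h j (by omega)
        simp [this]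
    have e2 := h2 t ω N hy
    rw [e, add_zero] at e2
    have e3 := congrFun (congrArg Prod.snd (inj (h1 t ω N hy) hy e2)) (2 * j + (t j).toNat)
    have e4 : av t (2 * j + (t j).toNat) = 1 := if_pos (cd_ex t j)
    simp only [Pi.add_apply, add_eq_left] at e3
    rw [Pi.smul_apply, e4, nsmul_eq_mul, mul_one] at e3
    have := Finset.mem_range.1 (np.1 e3)
    omega
  have c2 : ∀ t, ∀ᵐ ω ∂mu, ∀ n m, ¬ cd t n → (t, ω) ∈ Y₀ → bv f (ρ (t, ω)).1 m n ≠ 1 := by
    intro t
    refine ae_all_iff.2 fun n => ae_all_iff.2 fun m => ?_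
    by_cases hn : cd t n
    · exact Eventually.of_forall fun _ h => absurd hn h
    have hm : Measurable fun ω => ρ (t, ω) := hρ.comp measurable_prodMk_left
    have := rigid (av t) n (if_neg hn) {ω | (t, ω) ∈ Y₀ ∧ bv f (ρ (t, ω)).1 m n = 1}
      ((measurable_prodMk_left hY).inter (measurableSet_eq_fun ((measurable_pi_apply n).comp
        ((measurable_pi_apply m).comp ((bv_cont f).measurable.comp hm.fst))) measurable_const))
      (fun ω => (ρ (t, ω)).2 m n)
      ((measurable_pi_apply n).comp ((measurable_pi_apply m).comp hm.snd)) (by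
        rintro ω ⟨a1, a2⟩ N
        refine ⟨⟨h1 t ω N a1, by rw [h2 t ω N a1]; exact a2⟩, ?_⟩
        rw [h2 t ω N a1]
        simp [a2])
    filter_upwards [measure_eq_zero_iff_ae_notMem.1 this] with ω hω _ a b
    exact hω ⟨a, b⟩
  have c3 : ∀ t, ∀ᵐ ω ∂mu, ∃ x, f x = t ∧ (x 0 = 0 ↔ (ρ (t, ω)).1.1.2 0 = 0) := by
    intro t
    filter_upwards [full t, c2 t] with ω a b
    obtain ⟨x, hx⟩ := K_fin hf (ρ (t, ω)).1.2 (c1 t ω a)
    refine ⟨x, ?_, by rw [← hx]; simp [emb]⟩
    by_contra hne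
    obtain ⟨n, n1, n2⟩ := cd_ne (Ne.symm hne)
    obtain ⟨m, hm⟩ := tr_ex (c1 t ω a) n
    refine b n m n2 a ?_
    rw [bv, hm, ← hx]
    exact if_pos n1
  have hS : MeasurableSet {y : P × Om | (ρ y).1.1.2 0 = 0} :=
    measurableSet_eq_fun ((measurable_pi_apply 0).comp
      (measurable_subtype_coe.comp hρ.fst).snd) measurable_const
  refine ⟨{t | mu (Prod.mk t ⁻¹' {y : P × Om | (ρ y).1.1.2 0 = 0}) ≠ 0},
    (measurableSet_eq_fun (measurable_measure_prodMk_left hS) measurable_const).compl,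
    fun t ht => ?_, fun t ht => ?_⟩
  · obtain ⟨ω, a, x, b, c⟩ := (frequently_ae_iff.2 ht).and_eventually (c3 t) |>.exists
    exact ⟨x, c.2 a, b⟩
  · have := measure_eq_zero_iff_ae_notMem.1 (not_not.1 ht)
    obtain ⟨ω, a, x, b, c⟩ := (this.and (c3 t)).exists
    exact ⟨x, fun h => a (c.1 h), b⟩

theorem main (d : ℕ) (hd : 1 ≤ d) : ∃ X Y : TSys d,
    (∀ μ, Inv Y μ → Realized Y X μ) ∧ ¬ AlmostBorelEmb Y X := by
  classical
  obtain ⟨f, hf, hs, hB⟩ := exf
  refine ⟨XX d f, YY d, fun μ hμ => ?_, ?_⟩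
  · exact @realized d f hf hs μ hμ.1
  rintro ⟨Y₀, full, hY, h, ρ, m1, inj, eqv⟩
  have hsum : ∀ N : ℕ, ∑ k, (Pi.single (⟨0, hd⟩ : Fin d) (N : ℤ) : Fin d → ℤ) k = N := by
    intro N; simp
  have hne : Nonempty (K f × (ℕ → Om)) := ⟨(⟨emb f 0, subset_closure ⟨_, rfl⟩⟩, 0)⟩
  have h1 : ∀ t ω (N : ℕ), (t, ω) ∈ Y₀ → (t, ω + N • av t) ∈ Y₀ := by
    intro t ω N hy
    have := h (Pi.single ⟨0, hd⟩ N) _ hy
    change (t, ω + (∑ k, (Pi.single (⟨0, hd⟩ : Fin d) (N : ℤ) : Fin d → ℤ) k) • av t) ∈ Y₀ at this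
    rwa [hsum, natCast_zsmul] at this
  obtain ⟨r, r1, r2⟩ : ∃ r : (YY d).X → (XX d f).X, Measurable r ∧ ∀ y : Y₀, r y = ρ y :=
    ⟨fun y => if hy : y ∈ Y₀ then ρ ⟨y, hy⟩ else hne.some,
      Measurable.dite m1 measurable_const hY, fun y => dif_pos y.2⟩
  refine (core hf Y₀ hY (fun t => ?_) r r1 (fun y hy z hz e => ?_) h1
    fun t ω N hy => ?_).elim fun B b => hB B b.1 b.2.1 b.2.2
  · have mk : Measurable (Prod.mk t : Om → P × Om) := measurable_prodMk_left
    have := full (mu.map (Prod.mk t)) ⟨Measure.isProbabilityMeasure_map mk.aemeasurable, fun i => by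
      refine (Measure.map_map ((YY d).cont i).measurable mk).trans ?_
      have := Measure.map_map (μ := mu) mk (measurable_add_const ((∑ k, i k) • av t))
      rw [map_add_right_eq_self] at this
      exact this.symm⟩
    exact (ae_map_iff mk.aemeasurable hY).1 this
  · exact congrArg Subtype.val (inj ((r2 ⟨y, hy⟩).symm.trans (e.trans (r2 ⟨z, hz⟩))))
  · have e := (r2 _).trans ((eqv (Pi.single ⟨0, hd⟩ N) ⟨_, hy⟩).trans
      (congrArg _ (r2 ⟨_, hy⟩).symm))
    change r (t, ω + (∑ k, (Pi.single (⟨0, hd⟩ : Fin d) (N : ℤ) : Fin d → ℤ) k) • av t)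
      = ((r (t, ω)).1, (r (t, ω)).2 +
        (∑ k, (Pi.single (⟨0, hd⟩ : Fin d) (N : ℤ) : Fin d → ℤ) k) • bv f (r (t, ω)).1) at e
    rwa [hsum, natCast_zsmul, natCast_zsmul] at e

end Pool.Agent.H.MP_93a5dd_an
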